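import Pool.Agent.H69.LQ.Lib
import Pool.Agent.H69.LNN.Targets
import Pool.Agent.H69.LNN.Lib

/-!
# MP_8f7db2_an, row RB: rays of large volume
-/

set_option autoImplicit false

open MeasureTheory Metric Set
open scoped ENNReal

namespace Pool.Agent.H77.LNN

open Pool.Agent.H85.LK (E adm lam Ann)
open Pool.Agent.H69.LQ Pool.Agent.H69.LNN

private theorem split_r (N : ℕ) (hN : 4 ≤ N) (r u v L : ℝ) :
    r ^ (N - 1) * (u ^ 2 + (((N : ℝ) - 1) / r ^ 2 - L) * v ^ 2) =
      r ^ (N - 1) * u ^ 2 + ((N : ℝ) - 1) * (r ^ (N - 3) * v ^ 2) -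
        L * (r ^ (N - 1) * v ^ 2) := by
  have e : r ^ (N - 1) = r ^ (N - 3) * r ^ 2 := by
    rw [← pow_add]; congr 1; omega
  rcases eq_or_ne r 0 with h | h
  · subst h
    have e1 : (0 : ℝ) ^ (N - 3) = 0 := zero_pow (by omega)
    rw [e, e1]; ring
  · rw [e]; field_simp; ring

private theorem split_q (N : ℕ) (hN : 4 ≤ N) (r u v : ℝ) :
    r ^ (N - 1) * (u ^ 2 + ((N : ℝ) - 1) / r ^ 2 * v ^ 2) =
      r ^ (N - 1) * u ^ 2 + ((N : ℝ) - 1) * (r ^ (N - 3) * v ^ 2) := by
  have := split_r N hN r u v 0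
  rw [sub_zero] at this
  rw [this]; ring

theorem pf_RB (hL2 : T_L2) (hCV : T_CV) (hSI : T_SI) (hPW : T_PW) (hWI : T_WI) : T_RB := by
  obtain ⟨C, N2, hC, hN2, hL⟩ := hL2
  refine ⟨2 + 22 * (C + 44 + 44 * C), max (max N2 4) ⌈(44 + C) ^ 2⌉₊, by nlinarith,
    hN2.trans ((le_max_left _ _).trans (le_max_left _ _)), ?_⟩
  intro N L ρ f f' S hN hF hf hS hoff hρ1 hvr hρ2
  have hNa : N2 ≤ N := ((le_max_left _ _).trans (le_max_left _ _)).trans hN
  have hN4 : 4 ≤ N := ((le_max_right _ _).trans (le_max_left _ _)).trans hN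
  have hNc : (44 + C) ^ 2 ≤ (N : ℝ) := (Nat.le_ceil _).trans (by
    exact_mod_cast (le_max_right _ _).trans hN)
  have hNpos : (0 : ℝ) < N := by
    have : 0 < N := by omega
    exact_mod_cast this
  set s : ℝ := Real.sqrt N with hs
  have hss : s * s = N := Real.mul_self_sqrt hNpos.le
  have hsC : 44 + C ≤ s := Real.le_sqrt_of_sq_le hNc
  have hs0 : 0 < s := by linarith
  have hbbs : bb N = 1 + 20 / s := rfl
  have h20 : 20 / s ≤ 1 / 2 := by rw [div_le_iff₀ hs0]; linarith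
  have h20' : 0 < 20 / s := by positivity
  have hbb1 : 1 ≤ bb N := by rw [hbbs]; linarith
  have hbb0 : 0 < bb N := by linarith
  set B : ℝ := Real.log (bb N) with hB
  have hB0 : 0 ≤ B := Real.log_nonneg hbb1
  have hBe : Real.exp B = bb N := Real.exp_log hbb0
  have hlogρ0 : 0 ≤ Real.log ρ := Real.log_nonneg hρ1
  have hρ0 : 0 < ρ := by linarith
  have hlogρ : Real.log ρ ≤ 20 * s := by
    have h3 : Real.log ρ ≤ Real.log (bb N ^ N) := Real.log_le_log hρ0 hρ2
    rw [Real.log_pow] at h3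
    have h4 : Real.log (bb N) ≤ 20 / s := by
      have := Real.log_le_sub_one_of_pos hbb0
      rw [hbbs] at this ⊢
      linarith
    have h6 : (N : ℝ) * Real.log (bb N) ≤ N * (20 / s) := mul_le_mul_of_nonneg_left h4 hNpos.le
    have h7 : (N : ℝ) * (20 / s) = 20 * s := by rw [← hss]; field_simp
    linarith
  have hgB : gx N f B = 0 := by
    unfold gx
    rw [hBe, hf.far _ le_rfl, mul_zero]
  have hN1 : (0 : ℝ) < 1 / N := by positivity
  -- windows
  have hwin : ∀ y, (Real.log ρ + 1) / N ≤ y → y + 1 / N ≤ B →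
      ∃ z, y ≤ z ∧ z ≤ y + 1 / N ∧ gx N f z = 0 := by
    intro y hy1 hy2
    by_contra hcon
    push Not at hcon
    have h1 := hWI N S y (1 / N) (by omega) hS hN1.le (by
      rw [← hBe]
      exact Real.exp_le_exp.2 hy2) (by
      intro z hz1 hz2
      by_contra hzS
      apply hcon z hz1 hz2
      unfold gx
      rw [hoff _ (Real.exp_pos z) hzS, mul_zero])
    have h2 : (N : ℝ) * (1 / N) = 1 := by field_simp
    rw [h2] at h1
    have h3 : Real.exp 1 * ρ ≤ Real.exp (N * y) := by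
      calc Real.exp 1 * ρ = Real.exp (Real.log ρ + 1) := by
            rw [Real.exp_add, Real.exp_log hρ0, mul_comm]
        _ ≤ _ := Real.exp_le_exp.2 (by rw [div_le_iff₀ hNpos] at hy1; linarith)
    have he : 2 ≤ Real.exp 1 := by
      have := Real.add_one_le_exp (1 : ℝ)
      linarith
    have h4 : Real.exp 1 * ρ * (Real.exp 1 - 1) ≤ Real.exp (N * y) * (Real.exp 1 - 1) :=
      mul_le_mul_of_nonneg_right h3 (by linarith)
    have h5 : 2 * ρ * 1 ≤ Real.exp 1 * ρ * (Real.exp 1 - 1) :=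
      mul_le_mul (mul_le_mul_of_nonneg_right he hρ0.le) (by linarith) zero_le_one
        (by positivity)
    linarith
  obtain ⟨X1, hX0, hXB, hXs, hgX, hwX⟩ : ∃ X1, 0 ≤ X1 ∧ X1 ≤ B ∧ X1 ≤ (Real.log ρ + 2) / N ∧
      gx N f X1 = 0 ∧ ∀ y, X1 ≤ y → y + 1 / N ≤ B →
        ∃ z, y ≤ z ∧ z ≤ y + 1 / N ∧ gx N f z = 0 := by
    have e : (Real.log ρ + 1) / N + 1 / N = (Real.log ρ + 2) / N := by ring
    rcases le_or_gt ((Real.log ρ + 1) / N + 1 / N) B with hc | hc
    · obtain ⟨z, hz1, hz2, hz3⟩ := hwin _ le_rfl hc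
      refine ⟨z, ?_, hz2.trans hc, hz2.trans e.le, hz3,
        fun y hy1 hy2 => hwin y (hz1.trans hy1) hy2⟩
      exact le_trans (by positivity) hz1
    · refine ⟨B, hB0, le_rfl, ?_, hgB, fun y hy1 hy2 => ?_⟩
      · rw [← e]; exact hc.le
      · exfalso
        linarith
  set c : ℝ := Real.exp X1 with hcd
  have hc1 : 1 ≤ c := Real.one_le_exp hX0
  have hc0 : 0 < c := by linarith
  have hcb : c ≤ bb N := by rw [← hBe]; exact Real.exp_le_exp.2 hXB
  have hfc : f c = 0 := by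
    have h1 := hgX
    unfold gx at h1
    rcases mul_eq_zero.1 h1 with h | h
    · exact absurd h (Real.exp_pos _).ne'
    · exact h
  obtain ⟨δ, hδ0, hδ⟩ := hf.near
  have hf0 : f 0 = 0 := hδ 0 (by rw [abs_zero]; exact hδ0.le)
  have cf : Continuous f := continuous_iff_continuousAt.2 fun x => (hf.c1.1 x).continuousAt
  have cf' : Continuous f' := hf.c1.2
  -- bounds for `L`
  have hLN := hL N L hNa hF
  have hL0 : 0 < L := hF.pos
  have hCs : C / s ≤ 1 := by rw [div_le_iff₀ hs0]; linarith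
  have hCs0 : 0 ≤ C / s := by positivity
  -- outer part
  obtain ⟨hg1, hg2, hg3, -⟩ := hCV N L c (bb N) f f' (by omega) hc0 hcb hf.c1
  have hlc : Real.log c = X1 := Real.log_exp X1
  rw [hlc, ← hB, hgX, hgB] at hg3
  have cg : Continuous (gx N f) := continuous_iff_continuousAt.2 fun x => (hg1 x).continuousAt
  have cq : Continuous (qx N L) := by unfold qx; fun_prop
  have hout : 0 ≤ ∫ x in X1..B, (gx' N f f' x ^ 2 + qx N L x * gx N f x ^ 2) := by
    have hpw := hPW X1 B (1 / N) (gx N f) (gx' N f f') hXB hN1 ⟨hg1, hg2⟩ hgX hwX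
    have h1 : ∫ x in X1..B, (gx' N f f' x ^ 2 - (N : ℝ) ^ 2 * gx N f x ^ 2) ≤
        ∫ x in X1..B, (gx' N f f' x ^ 2 + qx N L x * gx N f x ^ 2) := by
      refine intervalIntegral.integral_mono_on hXB (Continuous.intervalIntegrable (by fun_prop) _ _)
        (Continuous.intervalIntegrable (by fun_prop) _ _) ?_
      intro x hx
      have h2 : L * Real.exp (2 * x) ≤ (N : ℝ) ^ 2 / 4 * 2 * (9 / 4) := by
        have h3 : Real.exp (2 * x) ≤ 9 / 4 := by
          have h4 : Real.exp (2 * x) ≤ Real.exp (B + B) := Real.exp_le_exp.2 (by linarith [hx.2])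
          rw [Real.exp_add, hBe] at h4
          have h5 : bb N ≤ 3 / 2 := by rw [hbbs]; linarith
          nlinarith
        have h6 : L ≤ (N : ℝ) ^ 2 / 4 * 2 :=
          hLN.trans (mul_le_mul_of_nonneg_left (by linarith) (by positivity))
        exact mul_le_mul h6 h3 (Real.exp_pos _).le (by positivity)
      have h7 : -(N : ℝ) ^ 2 ≤ qx N L x := by
        unfold qx
        nlinarith [sq_nonneg (N : ℝ)]
      have h8 : -(N : ℝ) ^ 2 * gx N f x ^ 2 ≤ qx N L x * gx N f x ^ 2 :=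
        mul_le_mul_of_nonneg_right h7 (sq_nonneg _)
      linarith
    have h2 : ∫ x in X1..B, (gx' N f f' x ^ 2 - (N : ℝ) ^ 2 * gx N f x ^ 2) =
        (∫ x in X1..B, gx' N f f' x ^ 2) - (N : ℝ) ^ 2 * ∫ x in X1..B, gx N f x ^ 2 := by
      rw [intervalIntegral.integral_sub (Continuous.intervalIntegrable (by fun_prop) _ _)
        (Continuous.intervalIntegrable (by fun_prop) _ _), intervalIntegral.integral_const_mul]
    have h3 : (N : ℝ) ^ 2 * ∫ x in X1..B, gx N f x ^ 2 ≤ ∫ x in X1..B, gx' N f f' x ^ 2 := by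
      have h4 := mul_le_mul_of_nonneg_left hpw (by positivity : 0 ≤ (N : ℝ) ^ 2)
      have h5 : (N : ℝ) ^ 2 * ((1 / N) ^ 2 * ∫ x in X1..B, gx' N f f' x ^ 2) =
          ∫ x in X1..B, gx' N f f' x ^ 2 := by field_simp
      linarith
    linarith
  -- inner part
  set I1 : ℝ := ∫ r in (0 : ℝ)..c, r ^ (N - 1) * f r ^ 2 with hI1
  set I3 : ℝ := ∫ r in (0 : ℝ)..c, r ^ (N - 3) * f r ^ 2 with hI3
  have hin : (∫ r in (0 : ℝ)..c, r ^ (N - 1) * (f' r ^ 2 + (((N : ℝ) - 1) / r ^ 2 - L) * f r ^ 2)) =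
      (∫ r in (0 : ℝ)..c, r ^ (N - 1) * (f' r ^ 2 + ((N : ℝ) - 1) / r ^ 2 * f r ^ 2)) - L * I1 := by
    simp only [split_r N hN4, split_q N hN4]
    rw [intervalIntegral.integral_sub (Continuous.intervalIntegrable (by fun_prop) _ _)
      (Continuous.intervalIntegrable (by fun_prop) _ _), intervalIntegral.integral_const_mul]
  have hsi := hSI N L c f f' (by omega) hF hc0 hf.c1 hf0 hfc
  have hI13 : I1 ≤ c ^ 2 * I3 := by
    rw [hI1, hI3, ← intervalIntegral.integral_const_mul]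
    refine intervalIntegral.integral_mono_on hc0.le
      (Continuous.intervalIntegrable (by fun_prop) _ _)
      (Continuous.intervalIntegrable (by fun_prop) _ _) ?_
    intro r hr
    have e : r ^ (N - 1) = r ^ 2 * r ^ (N - 3) := by
      rw [← pow_add]; congr 1; omega
    have h1 : r ^ 2 ≤ c ^ 2 := pow_le_pow_left₀ hr.1 hr.2 2
    have h2 : 0 ≤ r ^ (N - 3) * f r ^ 2 := mul_nonneg (pow_nonneg hr.1 _) (sq_nonneg _)
    calc r ^ (N - 1) * f r ^ 2 = r ^ 2 * (r ^ (N - 3) * f r ^ 2) := by rw [e]; ring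
      _ ≤ _ := mul_le_mul_of_nonneg_right h1 h2
  have hI3M : I3 ≤ Mr N f := by
    have h1 : Mr N f = I3 + ∫ r in c..bb N, r ^ (N - 3) * f r ^ 2 := by
      unfold Mr
      rw [hI3, intervalIntegral.integral_add_adjacent_intervals
        (Continuous.intervalIntegrable (by fun_prop) _ _)
        (Continuous.intervalIntegrable (by fun_prop) _ _)]
    have h2 : 0 ≤ ∫ r in c..bb N, r ^ (N - 3) * f r ^ 2 :=
      intervalIntegral.integral_nonneg hcb fun r hr =>
        mul_nonneg (pow_nonneg (hc0.le.trans hr.1) _) (sq_nonneg _)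
    linarith
  have hI30 : 0 ≤ I3 := intervalIntegral.integral_nonneg hc0.le fun r hr =>
    mul_nonneg (pow_nonneg hr.1 _) (sq_nonneg _)
  have hsplit : RR N L f f' =
      (∫ r in (0 : ℝ)..c, r ^ (N - 1) * (f' r ^ 2 + (((N : ℝ) - 1) / r ^ 2 - L) * f r ^ 2)) +
      ∫ r in c..bb N, r ^ (N - 1) * (f' r ^ 2 + (((N : ℝ) - 1) / r ^ 2 - L) * f r ^ 2) := by
    unfold RR
    simp only [split_r N hN4]
    rw [intervalIntegral.integral_add_adjacent_intervals
        (Continuous.intervalIntegrable (by fun_prop) _ _)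
        (Continuous.intervalIntegrable (by fun_prop) _ _)]
  have hc2 : 1 ≤ c ^ 2 := one_le_pow₀ hc1
  have hmain : -(L * (c ^ 2 - 1)) * Mr N f ≤ RR N L f f' := by
    rw [hsplit, hin, hg3]
    have h1 : L / c ^ 2 * I1 - L * I1 = -(L * (1 - 1 / c ^ 2)) * I1 := by ring
    have h2 : 0 ≤ L * (1 - 1 / c ^ 2) := by
      have : 1 / c ^ 2 ≤ 1 := by rw [div_le_one (by positivity)]; exact hc2
      have : 0 ≤ 1 - 1 / c ^ 2 := by linarith
      positivity
    have h3 : L * (1 - 1 / c ^ 2) * I1 ≤ L * (1 - 1 / c ^ 2) * (c ^ 2 * I3) :=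
      mul_le_mul_of_nonneg_left hI13 h2
    have h4 : L * (1 - 1 / c ^ 2) * (c ^ 2 * I3) = L * (c ^ 2 - 1) * I3 := by
      field_simp
    have h5 : L * (c ^ 2 - 1) * I3 ≤ L * (c ^ 2 - 1) * Mr N f :=
      mul_le_mul_of_nonneg_left hI3M (mul_nonneg hL0.le (by linarith))
    have h6 : ((N : ℝ) / 2 - 1) * ((0 : ℝ) ^ 2 - 0 ^ 2) = 0 := by ring
    rw [h6, sub_zero]
    linarith
  have hM0 : 0 ≤ Mr N f := hI30.trans hI3M
  -- the bound for the coefficient
  have hcoef : L * (c ^ 2 - 1) ≤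
      (N : ℝ) / 2 * (Real.log ρ + (2 + 22 * (C + 44 + 44 * C))) := by
    set t : ℝ := 2 * ((Real.log ρ + 2) / N) with ht
    have ht0 : 0 ≤ t := by positivity
    have hNs : (N : ℝ) = s * s := hss.symm
    have hl2 : (Real.log ρ + 2) / s ≤ 22 := by
      rw [div_le_iff₀ hs0]
      linarith
    have hts : t ≤ 44 / s := by
      have : t = 2 * ((Real.log ρ + 2) / s / s) := by rw [ht, hNs, div_div]
      rw [this]
      have h1 : (Real.log ρ + 2) / s / s ≤ 22 / s := div_le_div_of_nonneg_right hl2 hs0.le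
      have h2 : 44 / s = 2 * (22 / s) := by ring
      linarith
    have h44 : 44 / s ≤ 1 := by rw [div_le_iff₀ hs0]; linarith
    have ht1 : t ≤ 1 := hts.trans h44
    have h1 : c ^ 2 ≤ Real.exp t := by
      rw [hcd, ← Real.exp_nat_mul]
      refine Real.exp_le_exp.2 ?_
      rw [ht]; push_cast
      linarith
    have h2 : Real.exp t - 1 - t ≤ t ^ 2 := by
      have := Real.abs_exp_sub_one_sub_id_le (x := t) (by rw [abs_of_nonneg ht0]; exact ht1)
      exact (le_abs_self _).trans this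
    have h3 : c ^ 2 - 1 ≤ t * (1 + 44 / s) := by
      have : t ^ 2 ≤ t * (44 / s) := by rw [sq]; exact mul_le_mul_of_nonneg_left hts ht0
      linarith
    have h4 : L * (c ^ 2 - 1) ≤ (N : ℝ) ^ 2 / 4 * (1 + C / s) * (t * (1 + 44 / s)) :=
      mul_le_mul hLN h3 (by linarith) (by positivity)
    have h5 : (N : ℝ) ^ 2 / 4 * (1 + C / s) * (t * (1 + 44 / s)) =
        (N : ℝ) / 2 * ((Real.log ρ + 2) * ((1 + C / s) * (1 + 44 / s))) := by
      rw [ht]; field_simp; ring
    have h6 : (1 + C / s) * (1 + 44 / s) ≤ 1 + (C + 44 + 44 * C) / s := by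
      have h7 : (1 + C / s) * (1 + 44 / s) = 1 + (C + 44) / s + 44 * C / s * (1 / s) := by
        field_simp; ring
      have h8 : 1 / s ≤ 1 := by rw [div_le_one hs0]; linarith
      have h9 : 44 * C / s * (1 / s) ≤ 44 * C / s * 1 :=
        mul_le_mul_of_nonneg_left h8 (by positivity)
      have h10 : (C + 44 + 44 * C) / s = (C + 44) / s + 44 * C / s := by ring
      linarith
    have h7 : (Real.log ρ + 2) * ((1 + C / s) * (1 + 44 / s)) ≤
        Real.log ρ + (2 + 22 * (C + 44 + 44 * C)) := by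
      have h8 : (Real.log ρ + 2) * ((1 + C / s) * (1 + 44 / s)) ≤
          (Real.log ρ + 2) * (1 + (C + 44 + 44 * C) / s) :=
        mul_le_mul_of_nonneg_left h6 (by linarith)
      have h9 : (Real.log ρ + 2) * (1 + (C + 44 + 44 * C) / s) =
          Real.log ρ + 2 + (Real.log ρ + 2) / s * (C + 44 + 44 * C) := by ring
      have h10 : (Real.log ρ + 2) / s * (C + 44 + 44 * C) ≤ 22 * (C + 44 + 44 * C) :=
        mul_le_mul_of_nonneg_right hl2 (by positivity)
      linarith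
    calc _ ≤ _ := h4
      _ = _ := h5
      _ ≤ _ := mul_le_mul_of_nonneg_left h7 (by positivity)
  have := mul_le_mul_of_nonneg_right hcoef hM0
  linarith

end Pool.Agent.H77.LNN
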