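import Pool.Agent.H69.LQ.Lib
import Pool.Agent.H69.LNN.Targets
import Pool.Agent.H69.LNN.Lib

/-!
# MP_8f7db2_an, row VT: exponential integrability of the positive part of the potential
-/

set_option autoImplicit false

open MeasureTheory Metric Set
open scoped ENNReal

namespace Pool.Agent.H77.LNN

open Pool.Agent.H85.LK (E adm lam Ann)
open Pool.Agent.H69.LQ Pool.Agent.H69.LNN

private theorem av_one_le {N : ℕ} : av (fun _ : Sp N => (1 : ℝ)) ≤ 1 := by
  unfold av
  rw [integral_const, smul_eq_mul, mul_one]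
  have h : (mS N) univ ≤ 1 := by
    unfold mS
    rw [Measure.smul_apply, smul_eq_mul]
    exact ENNReal.inv_mul_le_one _
  exact ENNReal.toReal_le_of_le_ofReal zero_le_one (by simpa using h)

private theorem expo (C h K : ℝ) (hC : 0 ≤ C) (h0 : 0 ≤ h) (h1 : h ≤ K + 1) :
    Real.exp (C * h) ≤ 1 + C * Real.exp (C * (K + 1)) * (Real.exp h - 1) := by
  have e1 : Real.exp (C * h) ≤ 1 + C * h * Real.exp (C * h) := by
    have h2 := Real.add_one_le_exp (-(C * h))
    have h3 := mul_le_mul_of_nonneg_right h2 (Real.exp_pos (C * h)).le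
    rw [← Real.exp_add, neg_add_cancel, Real.exp_zero] at h3
    linarith
  have e2 : Real.exp (C * h) ≤ Real.exp (C * (K + 1)) :=
    Real.exp_le_exp.2 (mul_le_mul_of_nonneg_left h1 hC)
  have e3 : h ≤ Real.exp h - 1 := by linarith [Real.add_one_le_exp h]
  have e4 : C * h * Real.exp (C * h) ≤ C * h * Real.exp (C * (K + 1)) :=
    mul_le_mul_of_nonneg_left e2 (mul_nonneg hC h0)
  have e5 : C * Real.exp (C * (K + 1)) * h ≤ C * Real.exp (C * (K + 1)) * (Real.exp h - 1) :=
    mul_le_mul_of_nonneg_left e3 (mul_nonneg hC (Real.exp_pos _).le)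
  linarith

theorem pf_VT (hL2 : T_L2) (hNB : T_NB) : T_VT := by
  intro C₀ K κ₁ hC0 hK hκ₁
  obtain ⟨C, N2, hC, hN2, hL⟩ := hL2
  set CK : ℝ := 6 * (K + 2) with hCK
  set C2 : ℝ := CK * Real.exp (CK * (K + 1)) + 2 * Real.exp (3 * C₀ + 1) with hC2
  have hCK0 : 0 < CK := by rw [hCK]; linarith
  have hA0 : 0 < CK * Real.exp (CK * (K + 1)) := mul_pos hCK0 (Real.exp_pos _)
  have hB0 : 0 < 2 * Real.exp (3 * C₀ + 1) := mul_pos two_pos (Real.exp_pos _)
  have hC20 : 0 < C2 := by rw [hC2]; exact add_pos hA0 hB0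
  refine ⟨κ₁ / (2 * C2), max N2 (max 1681 ⌈9 * C ^ 2⌉₊), by positivity,
    hN2.trans (le_max_left _ _), ?_⟩
  intro N L ρ R d H hN hF bρ bR bd bH hδ hrel hd hH hρ h1 h2
  have hNa : N2 ≤ N := (le_max_left _ _).trans hN
  have hNb : 1681 ≤ N := ((le_max_left _ _).trans (le_max_right _ _)).trans hN
  have hNc : 9 * C ^ 2 ≤ (N : ℝ) := (Nat.le_ceil _).trans (by
    exact_mod_cast ((le_max_right _ _).trans (le_max_right _ _)).trans hN)
  have hNbr : (1681 : ℝ) ≤ N := by exact_mod_cast hNb
  have hNpos : (0 : ℝ) < N := by linarith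
  set s : ℝ := Real.sqrt N with hs
  have hss : s * s = N := Real.mul_self_sqrt hNpos.le
  have hs41 : 41 ≤ s := by
    rw [hs]
    apply Real.le_sqrt_of_sq_le
    norm_num; exact hNb
  have hs0 : 0 < s := by linarith
  have hsC : 3 * C ≤ s := by
    rw [hs]
    apply Real.le_sqrt_of_sq_le
    nlinarith
  -- the coefficient
  obtain ⟨hNP, hb1, hb2⟩ := hNB N L (by omega) hF
  have hb3 : be N L ≤ 2 / 3 := by
    have h3 := hL N L hNa hF
    have h4 : C / s ≤ 1 / 3 := by
      rw [div_le_iff₀ hs0]; linarith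
    have h5 : L ≤ (N : ℝ) ^ 2 / 4 * (4 / 3) :=
      h3.trans (mul_le_mul_of_nonneg_left (by linarith) (by positivity))
    have h6 : 2 * L / (N : ℝ) ^ 2 ≤ 2 / 3 := by
      rw [div_le_iff₀ (by positivity)]
      linarith
    exact hb2.trans h6
  set b : ℝ := be N L with hb
  have hb0 : 0 < b := by linarith
  have hR0 : ∀ θ, 0 < R θ := fun θ => by
    obtain ⟨δ, hδ0, hδ1⟩ := hδ
    exact lt_of_lt_of_le hδ0 (hδ1 θ)
  have bh : BM (hR R) := BM_hR bR hδ
  have bm : BM (fun θ => max (hR R θ) 0) := BM_max bh (BM_const 0)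
  classical
  set V : Sp N → ℝ := fun θ => if ρ θ ≤ Real.exp K then
    b * max (hR R θ) 0 + 2 * b * (1 / 1000) * max (hR R θ) 0 ^ 2
    else 1 / 2 * (Real.log (max (ρ θ) 1) + C₀) with hV
  have bV : BM V := by
    refine BM_ite (measurableSet_le bρ.1 measurable_const) ?_ ?_
    · exact (bm.const_mul b).add ((bm.pow 2).const_mul (2 * b * (1 / 1000)))
    · have h3 : BM (fun θ => Real.log (max (ρ θ) 1)) := by
        have h4 : Continuous (fun t : ℝ => Real.log (max t 1)) :=
          Continuous.log (continuous_id.max continuous_const) fun t =>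
            (lt_of_lt_of_le one_pos (le_max_right t 1)).ne'
        exact bρ.comp h4
      exact (h3.add (BM_const C₀)).const_mul (1 / 2)
  have hVs : ∀ θ, ρ θ ≤ Real.exp K →
      V θ = b * max (hR R θ) 0 + 2 * b * (1 / 1000) * max (hR R θ) 0 ^ 2 := fun θ h => if_pos h
  have hEK : 2 ≤ Real.exp K := by
    have := Real.add_one_le_exp K
    linarith
  have hVl : ∀ θ, Real.exp K < ρ θ → V θ = 1 / 2 * (Real.log (ρ θ) + C₀) := fun θ h => by
    rw [hV]
    simp only
    rw [if_neg (not_le.2 h), max_eq_left (by linarith)]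
  have hV0 : ∀ θ, 0 ≤ V θ := by
    intro θ
    rcases le_or_gt (ρ θ) (Real.exp K) with h | h
    · rw [hVs θ h]
      have := le_max_right (hR R θ) 0
      positivity
    · rw [hVl θ h]
      have : 0 ≤ Real.log (ρ θ) := Real.log_nonneg (by linarith)
      linarith
  refine ⟨V, bV, hV0, ?_, ?_, ?_⟩
  · -- exponential integrability
    have hN2' : (0 : ℝ) < (N : ℝ) - 2 := by linarith
    set a : ℝ := 2 * N / ((N : ℝ) - 2) with ha
    have ha0 : 0 < a := by rw [ha]; positivity
    have ha6 : a ≤ 6 := by
      rw [ha, div_le_iff₀ hN2']; linarith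
    have hpt : ∀ θ, Real.exp (a * V θ) ≤ 1 + C2 * (|ρ θ - 1| + H θ) := by
      intro θ
      have hH0 := (hH θ).1
      have hab := abs_nonneg (ρ θ - 1)
      rcases le_or_gt (ρ θ) (Real.exp K) with h | h
      · rw [hVs θ h]
        rcases le_or_gt (hR R θ) 0 with hh | hh
        · rw [max_eq_right hh]
          have : a * (b * 0 + 2 * b * (1 / 1000) * 0 ^ 2) = 0 := by ring
          rw [this, Real.exp_zero]
          have : 0 ≤ C2 * (|ρ θ - 1| + H θ) := by positivity
          linarith
        · rw [max_eq_left hh.le]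
          have e1 : Real.exp (hR R θ) = ρ θ + H θ - d θ := by
            rw [exp_hR (hR0 θ)]
            linarith [hrel θ]
          have e2 : hR R θ ≤ K + 1 := by
            have : Real.exp (hR R θ) ≤ Real.exp (K + 1) := by
              rw [e1, Real.exp_add]
              have h3 : 2 ≤ Real.exp 1 := by
                have := Real.add_one_le_exp (1 : ℝ)
                linarith
              have h4 := hd θ
              have h5 := (hH θ).2
              nlinarith [Real.exp_pos K]
            exact Real.exp_le_exp.1 this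
          have e3 : a * (b * hR R θ + 2 * b * (1 / 1000) * hR R θ ^ 2) ≤ CK * hR R θ := by
            have h3 : b * hR R θ + 2 * b * (1 / 1000) * hR R θ ^ 2 ≤ (K + 2) * hR R θ := by
              have h4 : b * hR R θ ≤ 1 * hR R θ := mul_le_mul_of_nonneg_right (by linarith) hh.le
              have h5 : 2 * b * (1 / 1000) * hR R θ ^ 2 ≤ 1 * hR R θ ^ 2 :=
                mul_le_mul_of_nonneg_right (by linarith) (sq_nonneg _)
              have h6 : hR R θ ^ 2 ≤ (K + 1) * hR R θ := by
                rw [sq]; exact mul_le_mul_of_nonneg_right e2 hh.le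
              linarith
            have h7 : 0 ≤ b * hR R θ + 2 * b * (1 / 1000) * hR R θ ^ 2 := by positivity
            calc _ ≤ 6 * (b * hR R θ + 2 * b * (1 / 1000) * hR R θ ^ 2) :=
                  mul_le_mul_of_nonneg_right ha6 h7
              _ ≤ 6 * ((K + 2) * hR R θ) := mul_le_mul_of_nonneg_left h3 (by norm_num)
              _ = CK * hR R θ := by rw [hCK]; ring
          have e4 := expo CK (hR R θ) K hCK0.le hh.le e2
          have e5 : Real.exp (hR R θ) - 1 ≤ |ρ θ - 1| + H θ := by
            rw [e1]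
            have := le_abs_self (ρ θ - 1)
            have := hd θ
            linarith
          calc _ ≤ Real.exp (CK * hR R θ) := Real.exp_le_exp.2 e3
            _ ≤ _ := e4
            _ ≤ 1 + CK * Real.exp (CK * (K + 1)) * (|ρ θ - 1| + H θ) := by
              have := mul_le_mul_of_nonneg_left e5 hA0.le
              linarith
            _ ≤ _ := by
              have : CK * Real.exp (CK * (K + 1)) * (|ρ θ - 1| + H θ) ≤
                  C2 * (|ρ θ - 1| + H θ) :=
                mul_le_mul_of_nonneg_right (by rw [hC2]; linarith) (by positivity)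
              linarith
      · rw [hVl θ h]
        have hρ2 : 2 < ρ θ := by linarith
        have e1 : Real.log (ρ θ) ≤ 20 * s := by
          have hbb : (1 : ℝ) ≤ bb N := by
            unfold bb
            have : 0 ≤ 20 / Real.sqrt N := by positivity
            linarith
          have h3 : Real.log (ρ θ) ≤ Real.log (bb N ^ N) :=
            Real.log_le_log (by linarith) (hρ θ).2
          rw [Real.log_pow] at h3
          have h4 : Real.log (bb N) ≤ 20 / s := by
            have := Real.log_le_sub_one_of_pos (lt_of_lt_of_le one_pos hbb)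
            have h5 : bb N - 1 = 20 / s := by unfold bb; ring
            linarith
          have h6 : (N : ℝ) * Real.log (bb N) ≤ N * (20 / s) :=
            mul_le_mul_of_nonneg_left h4 hNpos.le
          have h7 : (N : ℝ) * (20 / s) = 20 * s := by
            rw [← hss]; field_simp
          linarith
        have e2 : a * (1 / 2 * (Real.log (ρ θ) + C₀)) ≤ Real.log (ρ θ) + (3 * C₀ + 1) := by
          have h3 : a * (1 / 2 * (Real.log (ρ θ) + C₀)) =
              (Real.log (ρ θ) + C₀) + 2 * (Real.log (ρ θ) + C₀) / ((N : ℝ) - 2) := by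
            rw [ha]; field_simp; ring
          have h4 : 2 * (Real.log (ρ θ) + C₀) / ((N : ℝ) - 2) ≤ 1 + 2 * C₀ := by
            rw [div_le_iff₀ hN2']
            have h5 : 2 * (20 * s) ≤ (N : ℝ) - 2 := by nlinarith
            have h6 : 2 * C₀ ≤ 2 * C₀ * ((N : ℝ) - 2) := by nlinarith
            linarith
          linarith
        calc _ ≤ Real.exp (Real.log (ρ θ) + (3 * C₀ + 1)) := Real.exp_le_exp.2 e2
          _ = ρ θ * Real.exp (3 * C₀ + 1) := by
            rw [Real.exp_add, Real.exp_log (by linarith)]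
          _ ≤ (2 * |ρ θ - 1|) * Real.exp (3 * C₀ + 1) := by
            refine mul_le_mul_of_nonneg_right ?_ (Real.exp_pos _).le
            have := le_abs_self (ρ θ - 1)
            linarith
          _ = (2 * Real.exp (3 * C₀ + 1)) * |ρ θ - 1| := by ring
          _ ≤ C2 * |ρ θ - 1| := mul_le_mul_of_nonneg_right (by rw [hC2]; linarith) hab
          _ ≤ _ := by
            have : 0 ≤ C2 * H θ := by positivity
            linarith
    have b1 : BM (fun θ => |ρ θ - 1|) := (bρ.sub (BM_const 1)).abs
    have b2 : BM (fun θ => |ρ θ - 1| + H θ) := b1.add bH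
    have b3 : BM (fun θ => C2 * (|ρ θ - 1| + H θ)) := b2.const_mul C2
    have b4 : BM (fun θ => Real.exp (a * V θ)) := (bV.const_mul a).comp Real.continuous_exp
    calc av (fun θ => Real.exp (a * V θ))
        ≤ av (fun θ => 1 + C2 * (|ρ θ - 1| + H θ)) :=
          av_mono b4 ((BM_const 1).add b3) hpt
      _ = av (fun _ : Sp N => (1 : ℝ)) + C2 * (av (fun θ => |ρ θ - 1|) + av H) := by
          rw [av_add (BM_const 1) b3, av_const_mul, av_add b1 bH]
      _ ≤ 1 + C2 * (κ₁ / (2 * C2) + κ₁ / (2 * C2)) := by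
          have := mul_le_mul_of_nonneg_left (add_le_add h1 h2) hC20.le
          linarith [av_one_le (N := N)]
      _ = 1 + κ₁ := by field_simp; ring
  · intro θ h
    rw [hVs θ h]
    rcases le_or_gt (hR R θ) 0 with hh | hh
    · have h3 : ht (hR R θ) ^ 2 ≤ max (hR R θ) 0 ^ 2 + 9 / 4 := by
        have h4 := ht_ge (hR R θ)
        have h5 : ht (hR R θ) ≤ 0 := max_le hh (by norm_num)
        nlinarith [sq_nonneg (max (hR R θ) 0)]
      have h6 : 2 * b * (1 / 1000) * ht (hR R θ) ^ 2 ≤
          2 * b * (1 / 1000) * (max (hR R θ) 0 ^ 2 + 9 / 4) :=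
        mul_le_mul_of_nonneg_left h3 (by positivity)
      linarith
    · rw [ht_of_le (by linarith), max_eq_left hh.le]
      linarith
  · intro θ h
    rw [hVl θ h]

end Pool.Agent.H77.LNN
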